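import Mathlib
import Pool.Agent.Y269.EL.Stm2
import Pool.Agent.H188R3.IndLim2
import Pool.Agent.TH429.J421

/-!
The inductive limit of the stages (job EL-LIM).
-/

set_option autoImplicit false

namespace Pool.Agent.Y165.EL

open Filter Topology Set
open Pool.Agent.Y269.EL Pool.Agent.Y269.ElliottDef Pool.Agent.H188R3 Pool.Agent.TH249

lemma pi_mul' {B : Type} [CStarAlgebra B] {v e : B} (he : IsStarProjection e)
    (h : star v * v = e) : v * e = v := by
  rw [← sub_eq_zero, ← norm_eq_zero]
  have : ‖v * e - v‖ * ‖v * e - v‖ = 0 := by
    rw [← CStarRing.norm_star_mul_self, norm_eq_zero]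
    have h1 := he.isIdempotentElem.eq
    have h2 : star (v * e - v) * (v * e - v) =
        star e * (star v * v) * e - star e * (star v * v) - (star v * v) * e + star v * v := by
      simp only [star_sub, star_mul]; noncomm_ring
    rw [h2, h, he.isSelfAdjoint.star_eq, h1, h1]
    simp
  nlinarith

/-- a projection equivalent to an infinite projection is infinite -/
lemma infinite_of_equiv {B : Type} [CStarAlgebra B] {p q v w : B} (hp : IsStarProjection p)
    (hq : IsStarProjection q) (hv1 : star v * v = p) (hv2 : v * star v = q)
    (hw1 : star w * w = q) (hw2 : q * (w * star w) = w * star w) (hw3 : w * star w ≠ q) :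
    InfiniteProj p := by
  have hvp : v * p = v := pi_mul' hp hv1
  have hwq : w * q = w := pi_mul' hq hw1
  have hqv : q * v = v := by
    rw [← hv2, mul_assoc, hv1, hvp]
  have hqw : q * w = w := by
    calc q * w = q * (w * q) := by rw [hwq]
      _ = q * (w * star w) * w := by rw [← hw1]; simp only [mul_assoc]
      _ = w * q := by rw [hw2, ← hw1]; simp only [mul_assoc]
      _ = w := hwq
  have hps : star p = p := hp.isSelfAdjoint
  have hqs : star q = q := hq.isSelfAdjoint
  have hvp' : p * star v = star v := by
    have := congrArg star hvp
    rwa [star_mul, hps] at this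
  have hwq' : q * star w = star w := by
    have := congrArg star hwq
    rwa [star_mul, hqs] at this
  have hqw' : star w * q = star w := by
    have := congrArg star hqw
    rwa [star_mul, hqs] at this
  have hVV : (star v * w * v) * star (star v * w * v) = star v * (w * star w) * v := by
    rw [star_mul, star_mul, star_star]
    calc star v * w * v * (star v * (star w * v))
        = star v * w * (v * star v) * star w * v := by simp only [mul_assoc]
      _ = star v * (w * q) * star w * v := by rw [hv2]; simp only [mul_assoc]
      _ = star v * (w * star w) * v := by rw [hwq]; simp only [mul_assoc]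
  refine ⟨star v * w * v, ?_, ?_, ?_⟩
  · rw [star_mul, star_mul, star_star]
    calc star v * (star w * v) * (star v * w * v)
        = star v * (star w * (v * star v)) * w * v := by simp only [mul_assoc]
      _ = star v * (star w * w) * v := by rw [hv2, hqw']; simp only [mul_assoc]
      _ = star v * v := by rw [hw1, mul_assoc, hqv]
      _ = p := hv1
  · rw [hVV]
    calc p * (star v * (w * star w) * v) = (p * star v) * (w * star w) * v := by
          simp only [mul_assoc]
      _ = _ := by rw [hvp']
  · rw [hVV]
    intro h
    apply hw3
    have h1 : v * (star v * (w * star w) * v) * star v = v * p * star v := by rw [h]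
    have h2 : v * (star v * (w * star w) * v) * star v = w * star w := by
      calc v * (star v * (w * star w) * v) * star v
          = (v * star v) * w * (star w * (v * star v)) := by simp only [mul_assoc]
        _ = (q * w) * (star w * q) := by rw [hv2]
        _ = w * star w := by rw [hqw, hqw']
    rw [h2, hvp, hv2] at h1
    exact h1

theorem lim : LimStmt := by
  intro E _ _ φ hφ hfull hinf f hf hf0 hnorm
  obtain ⟨L, _, j, hj⟩ := exists_lim φ hφ
  have hnt : Nontrivial L := (hj.inj 0).nontrivial
  refine ⟨L, inferInstance, ?_, ?_, ?_⟩
  · refine hj.simple fun n x hx => ⟨n + 1, Nat.le_succ n, fun I hI => hfull n x hx I ?_⟩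
    rwa [trans_succ φ le_rfl, trans_self] at hI
  · intro p hp hp0
    obtain ⟨n, x, hx⟩ := hj.dense p (1 / 16) (by norm_num)
    have hiso : Isometry (j n) := NonUnitalStarAlgHom.isometry (j n : E n →⋆ₙₐ[ℂ] L) (hj.inj n)
    have hcl : IsClosed (((j n).range : StarSubalgebra ℂ L) : Set L) := by
      have : (((j n).range : StarSubalgebra ℂ L) : Set L) = Set.range (j n) := rfl
      rw [this]
      exact hiso.isClosedEmbedding.isClosed_range
    obtain ⟨p', ⟨q, hq⟩, hp1, hp2⟩ := JF.near (j n).range hcl p hp (j n x) ⟨x, rfl⟩
      (by rw [norm_sub_rev]; exact hx)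
    have hq' : j n q = p' := hq
    subst hq'
    obtain ⟨v, hv1, hv2⟩ := JF.close p (j n q) hp hp1 (by rw [norm_sub_rev]; exact hp2)
    have hqp : IsStarProjection q := by
      refine ⟨?_, ?_⟩
      · apply hj.inj n
        rw [map_mul]
        exact hp1.isIdempotentElem.eq
      · apply hj.inj n
        rw [map_star]
        exact hp1.isSelfAdjoint.star_eq
    have hq0 : q ≠ 0 := by
      rintro rfl
      rw [map_zero] at hv2
      apply hp0
      have h1 : v = 0 := by
        have : ‖star v‖ * ‖star v‖ = 0 := by
          rw [← CStarRing.norm_star_mul_self, star_star, hv2, norm_zero]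
        have h2 : ‖star v‖ = 0 := by simpa using this
        rwa [norm_star, norm_eq_zero] at h2
      rw [← hv1, h1, mul_zero]
    obtain ⟨w, hw1, hw2, hw3⟩ := hinf n q hqp hq0
    refine infinite_of_equiv (w := j (n + 1) w) hp hp1 hv1 hv2 ?_ ?_ ?_
    · rw [← map_star, ← map_mul, hw1, hj.comp]
    · rw [← map_star, ← map_mul, ← hj.comp n q, ← map_mul, hw2]
    · rw [← map_star, ← map_mul, ← hj.comp n q]
      intro h
      exact hw3 (hj.inj (n + 1) h)
  · refine ⟨j 0 (f 0), ?_, ?_⟩
    · intro h
      exact hf0 (hj.inj 0 (by rw [h, map_zero]))
    · have hjf : ∀ n, j n (f n) = j 0 (f 0) := by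
        intro n
        induction n with
        | zero => rfl
        | succ n ih => rw [hf, hj.comp, ih]
      set x := j 0 (f 0) with hx
      intro y
      have hc : IsClosed {y : L | 1 ≤ ‖1 - y * (star x * x) * star y‖} :=
        isClosed_le continuous_const (by fun_prop)
      have hy : y ∈ closure {y : L | 1 ≤ ‖1 - y * (star x * x) * star y‖} := by
        rw [Metric.mem_closure_iff]
        intro ε hε
        obtain ⟨n, z, hz⟩ := hj.dense y ε hε
        refine ⟨j n z, ?_, by rwa [dist_eq_norm]⟩
        show 1 ≤ ‖1 - j n z * (star x * x) * star (j n z)‖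
        have h1 : 1 - j n z * (star x * x) * star (j n z) =
            j n (1 - z * (star (f n) * f n) * star z) := by
          rw [← hjf n]
          simp only [map_sub, map_mul, map_star, map_one]
        rw [h1, norm_map_inj _ (hj.inj n)]
        exact hnorm n z
      rwa [hc.closure_eq] at hy

end Pool.Agent.Y165.EL
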